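import Mathlib

/-!
Basic facts on subset sums and on the growth function `lam X g = |(g + X) \ X|`,
and the isoperimetric lemma for symmetric sets in a finite abelian group.
-/

open Finset
open scoped Pointwise

namespace Pool.Agent.MP_d4af01_co

variable {G : Type*} [AddCommGroup G] [DecidableEq G]

/-- Subset sums of a finite set, as a finite set. -/
def ss (A : Finset G) : Finset G := A.powerset.image (fun B => ∑ b ∈ B, b)

lemma mem_ss {A : Finset G} {g : G} : g ∈ ss A ↔ ∃ B ⊆ A, ∑ b ∈ B, b = g := by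
  simp [ss]

lemma zero_mem_ss (A : Finset G) : (0 : G) ∈ ss A := mem_ss.2 ⟨∅, by simp, by simp⟩

lemma ss_nonempty (A : Finset G) : (ss A).Nonempty := ⟨0, zero_mem_ss A⟩

lemma ss_mono {A B : Finset G} (h : A ⊆ B) : ss A ⊆ ss B := by
  intro g hg
  obtain ⟨C, hC, rfl⟩ := mem_ss.1 hg
  exact mem_ss.2 ⟨C, hC.trans h, rfl⟩

lemma ss_empty : ss (∅ : Finset G) = {0} := by
  ext g; simp [mem_ss, Finset.subset_empty, eq_comm]

lemma ss_insert {A : Finset G} {a : G} (ha : a ∉ A) :
    ss (insert a A) = ss A ∪ (a +ᵥ ss A) := by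
  ext g
  simp only [mem_union, mem_ss, Finset.mem_vadd_finset]
  constructor
  · rintro ⟨B, hB, rfl⟩
    by_cases haB : a ∈ B
    · right
      refine ⟨∑ b ∈ B.erase a, b, ⟨B.erase a, ?_, rfl⟩, ?_⟩
      · intro x hx
        have := hB (mem_of_mem_erase hx)
        rcases mem_insert.1 this with h | h
        · exact absurd h (ne_of_mem_erase hx)
        · exact h
      · rw [vadd_eq_add]
        exact Finset.add_sum_erase B (fun b => b) haB
    · left
      refine ⟨B, ?_, rfl⟩
      intro x hx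
      rcases mem_insert.1 (hB hx) with h | h
      · subst h; exact absurd hx haB
      · exact h
  · rintro (⟨B, hB, rfl⟩ | ⟨s, ⟨B, hB, rfl⟩, rfl⟩)
    · exact ⟨B, hB.trans (subset_insert _ _), rfl⟩
    · refine ⟨insert a B, insert_subset_insert _ hB, ?_⟩
      have : a ∉ B := fun h => ha (hB h)
      simp [sum_insert this]

lemma ss_union {A B : Finset G} (h : Disjoint A B) : ss (A ∪ B) = ss A + ss B := by
  ext g
  simp only [mem_add, mem_ss]
  constructor
  · rintro ⟨C, hC, rfl⟩
    refine ⟨_, ⟨C ∩ A, inter_subset_right, rfl⟩, _, ⟨C ∩ B, inter_subset_right, rfl⟩, ?_⟩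
    rw [← sum_union]
    · rw [← inter_union_distrib_left, inter_eq_left.2 hC]
    · exact h.mono inter_subset_right inter_subset_right
  · rintro ⟨x, ⟨C, hC, rfl⟩, y, ⟨D, hD, rfl⟩, rfl⟩
    refine ⟨C ∪ D, union_subset_union hC hD, ?_⟩
    rw [sum_union (h.mono hC hD)]

/-- `|(g + X) \ X|`. -/
def lam (X : Finset G) (g : G) : ℕ := ((g +ᵥ X) \ X).card

lemma card_union_vadd (X : Finset G) (g : G) : (X ∪ (g +ᵥ X)).card = X.card + lam X g := by
  unfold lam
  rw [← card_union_of_disjoint disjoint_sdiff, union_sdiff_self_eq_union]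

lemma lam_zero (X : Finset G) : lam X 0 = 0 := by simp [lam]

lemma lam_eq' (X : Finset G) (g : G) : lam X g = (X \ (g +ᵥ X)).card := by
  unfold lam
  have h1 := card_sdiff_add_card_inter (g +ᵥ X) X
  have h2 := card_sdiff_add_card_inter X (g +ᵥ X)
  rw [inter_comm] at h2
  rw [card_vadd_finset] at h1
  omega

lemma lam_neg (X : Finset G) (g : G) : lam X (-g) = lam X g := by
  rw [lam_eq' X g, lam]
  have : (-g +ᵥ X) \ X = -g +ᵥ (X \ (g +ᵥ X)) := by
    rw [vadd_finset_sdiff, neg_vadd_vadd]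
  rw [this, card_vadd_finset]

lemma lam_add (X : Finset G) (g h : G) : lam X (g + h) ≤ lam X g + lam X h := by
  unfold lam
  have : ((g + h) +ᵥ X) \ X ⊆ ((g +ᵥ X) \ X) ∪ (g +ᵥ ((h +ᵥ X) \ X)) := by
    intro x hx
    rw [mem_sdiff] at hx
    rw [mem_union, mem_sdiff]
    by_cases h1 : x ∈ g +ᵥ X
    · left; exact ⟨h1, hx.2⟩
    · right
      rw [vadd_finset_sdiff, mem_sdiff]
      exact ⟨by rw [vadd_vadd]; exact hx.1, h1⟩
  calc _ ≤ _ := card_le_card this
    _ ≤ _ := card_union_le _ _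
    _ = _ := by rw [card_vadd_finset]

lemma lam_sum (X Z : Finset G) :
    X.card * Z.card ≤ ∑ g ∈ Z, lam X g + X.card * X.card := by
  have h1 : ∀ g ∈ Z, X.card = lam X g + ((g +ᵥ X) ∩ X).card := by
    intro g _
    have := card_sdiff_add_card_inter (g +ᵥ X) X
    rw [card_vadd_finset] at this
    unfold lam; omega
  have h2 : X.card * Z.card = ∑ g ∈ Z, (lam X g + ((g +ᵥ X) ∩ X).card) := by
    rw [← sum_congr rfl h1, sum_const, smul_eq_mul, mul_comm]
  rw [h2, sum_add_distrib]
  refine Nat.add_le_add_left ?_ _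
  have h3 : ∑ g ∈ Z, ((g +ᵥ X) ∩ X).card = (Z.sigma (fun g => (g +ᵥ X) ∩ X)).card := by
    rw [card_sigma]
  rw [h3, ← card_product]
  refine card_le_card_of_injOn (fun p => (p.2, -p.1 + p.2)) ?_ ?_
  · rintro ⟨g, y⟩ hy
    simp only [coe_sigma, Set.mem_sigma_iff, mem_coe, mem_inter, mem_vadd_finset] at hy
    obtain ⟨_, ⟨x, hx, hxy⟩, hy⟩ := hy
    simp only [coe_product, Set.mem_prod, mem_coe]
    refine ⟨hy, ?_⟩
    rw [← hxy]; simpa using hx
  · rintro ⟨g, y⟩ _ ⟨g', y'⟩ _ h
    simp only [Prod.mk.injEq] at h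
    obtain ⟨h1, h2⟩ := h
    subst h1
    simp at h2
    subst h2
    rfl

section Fin

variable [Fintype G]

lemma lam_compl (X : Finset G) (g : G) : lam Xᶜ g = lam X g := by
  rw [lam_eq' X g, lam]
  congr 1
  ext x
  have h : x ∈ g +ᵥ Xᶜ ↔ x ∉ g +ᵥ X := by
    rw [← neg_vadd_mem_iff, ← neg_vadd_mem_iff (a := g), mem_compl]
  simp only [mem_sdiff, mem_compl, not_not, h] 
  tauto

/-- The isoperimetric lemma for symmetric sets: the best expansion is attained on a subgroup. -/
theorem isoperimetric (W : Finset G) (h0 : (0 : G) ∈ W) (hW : ∀ w ∈ W, -w ∈ W) (κ : ℕ)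
    (hκ : ∀ H : AddSubgroup G, ∀ K : Finset G, (K : Set G) = H → K + W ≠ univ →
      K.card + κ ≤ (K + W).card)
    (X : Finset G) (hX : X.Nonempty) (hXW : X + W ≠ univ) : X.card + κ ≤ (X + W).card := by
  classical
  -- admissible sets
  let P : Finset (Finset G) := univ.filter (fun Y => Y.Nonempty ∧ Y + W ≠ univ)
  have hP : ∀ Y : Finset G, Y ∈ P ↔ Y.Nonempty ∧ Y + W ≠ univ := by intro Y; simp [P]
  let n := Fintype.card G
  have hsub : ∀ Y : Finset G, Y ⊆ Y + W := by
    intro Y y hy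
    exact mem_add.2 ⟨y, hy, 0, h0, add_zero y⟩
  have hle : ∀ Y : Finset G, Y.card ≤ (Y + W).card := fun Y => card_le_card (hsub Y)
  have hn : ∀ Y : Finset G, Y.card ≤ n := fun Y => card_le_univ Y
  let f : Finset G → ℕ := fun Y => ((Y + W).card - Y.card) * (n + 1) + Y.card
  obtain ⟨A, hAP, hAmin⟩ := P.exists_min_image f ⟨X, (hP X).2 ⟨hX, hXW⟩⟩
  obtain ⟨a0, ha0⟩ := ((hP A).1 hAP).1
  -- translate so that `0 ∈ A`
  let A' : Finset G := (-a0) +ᵥ A
  have hA'W : A' + W = (-a0) +ᵥ (A + W) := by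
    simp only [A']
    exact vadd_add_assoc (-a0) A W
  have hcard' : A'.card = A.card := card_vadd_finset _ _
  have hA'0 : (0 : G) ∈ A' := by
    refine mem_vadd_finset.2 ⟨a0, ha0, by simp⟩
  have hA'P : A' ∈ P := by
    refine (hP _).2 ⟨⟨0, hA'0⟩, ?_⟩
    rw [hA'W]
    intro h
    apply ((hP A).1 hAP).2
    have := congrArg (fun Z => a0 +ᵥ Z) h
    simpa using this
  have hfA' : f A' = f A := by
    simp only [f, hcard', hA'W, card_vadd_finset]
  have hmin : ∀ Y ∈ P, f A' ≤ f Y := fun Y hY => hfA' ▸ hAmin Y hY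
  -- the boundary
  set μ : ℕ := (A' + W).card - A'.card with hμ
  have hμ' : (A' + W).card = A'.card + μ := by
    have := hle A'; omega
  have hmin1 : ∀ Y ∈ P, Y.card + μ ≤ (Y + W).card := by
    intro Y hY
    have h1 := hmin Y hY
    simp only [f] at h1
    rw [← hμ] at h1
    have h2 := hle Y
    have h3 := hn Y
    by_contra hcon
    push Not at hcon
    have h4 : (Y + W).card - Y.card + 1 ≤ μ := by omega
    have h5 : ((Y + W).card - Y.card + 1) * (n + 1) ≤ μ * (n + 1) := Nat.mul_le_mul_right _ h4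
    have h6 : ((Y + W).card - Y.card + 1) * (n + 1)
        = ((Y + W).card - Y.card) * (n + 1) + (n + 1) := by ring
    omega
  have hmin2 : ∀ Y ∈ P, Y.card < A'.card → Y.card + μ + 1 ≤ (Y + W).card := by
    intro Y hY hlt
    have h0 := hmin1 Y hY
    by_contra hcon
    have h1 : (Y + W).card = Y.card + μ := by omega
    have h2 := hmin Y hY
    simp only [f] at h2
    rw [← hμ, h1] at h2
    have h3 : Y.card + μ - Y.card = μ := by omega
    rw [h3] at h2
    omega
  -- the complementary fragment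
  have hco : 2 * A'.card + μ ≤ n := by
    let B : Finset G := (A' + W)ᶜ
    have hBne : B.Nonempty := by
      rw [Finset.nonempty_iff_ne_empty]
      intro h
      exact ((hP A').1 hA'P).2 (compl_eq_empty_iff _ |>.1 h)
    have hBW : B + W ⊆ A'ᶜ := by
      intro x hx
      obtain ⟨y, hy, w, hw, rfl⟩ := mem_add.1 hx
      rw [mem_compl]
      intro hxA
      have : y ∈ A' + W := mem_add.2 ⟨y + w, hxA, -w, hW w hw, by abel⟩
      exact (mem_compl.1 hy) this
    have hBP : B ∈ P := by
      refine (hP _).2 ⟨hBne, ?_⟩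
      intro h
      rw [h] at hBW
      have := hBW (mem_univ (0 : G))
      exact (mem_compl.1 this) hA'0
    have h1 : B.card = n - (A' + W).card := card_compl _
    have h2 : (B + W).card ≤ n - A'.card := by
      calc _ ≤ _ := card_le_card hBW
        _ = _ := card_compl _
    have h3 := hn A'
    have h4 := hn (A' + W)
    by_contra hcon
    have h5 : B.card < A'.card := by omega
    have := hmin2 B hBP h5
    omega
  -- translates meeting `A'` coincide with it
  have hkey : ∀ a ∈ A', (-a) +ᵥ A' = A' := by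
    intro a ha
    by_contra hne
    set Y : Finset G := (-a) +ᵥ A' with hY
    have hYcard : Y.card = A'.card := card_vadd_finset _ _
    have hYW : (Y + W).card = A'.card + μ := by
      have : Y + W = (-a) +ᵥ (A' + W) := vadd_add_assoc (-a) A' W
      rw [this, card_vadd_finset, hμ']
    have h0Y : (0 : G) ∈ Y := mem_vadd_finset.2 ⟨a, ha, by simp⟩
    have hI : (A' ∩ Y).card < A'.card := by
      refine lt_of_le_of_ne (card_le_card inter_subset_left) ?_
      intro h
      have h1 : A' ∩ Y = A' := eq_of_subset_of_card_le inter_subset_left h.ge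
      have h2 : A' ⊆ Y := inter_eq_left.1 h1
      exact hne (eq_of_subset_of_card_le h2 hYcard.le).symm
    have hIP : A' ∩ Y ∈ P := by
      refine (hP _).2 ⟨⟨0, mem_inter.2 ⟨hA'0, h0Y⟩⟩, ?_⟩
      intro h
      apply ((hP A').1 hA'P).2
      rw [eq_univ_iff_forall] at h ⊢
      intro x
      exact add_subset_add_right inter_subset_left (h x)
    have h1 := hmin2 _ hIP hI
    have h2 : (A' ∩ Y + W) ⊆ (A' + W) ∩ (Y + W) :=
      subset_inter (add_subset_add_right inter_subset_left)
        (add_subset_add_right inter_subset_right)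
    have h3 : (A' ∪ Y) + W = (A' + W) ∪ (Y + W) := union_add
    have h4 := card_union_add_card_inter (A' + W) (Y + W)
    have h5 := card_le_card h2
    have h6 := card_union_add_card_inter A' Y
    have h7 : 1 ≤ (A' ∩ Y).card := card_pos.2 ⟨0, mem_inter.2 ⟨hA'0, h0Y⟩⟩
    rw [← h3] at h4
    have hUP : A' ∪ Y ∈ P := by
      refine (hP _).2 ⟨⟨0, mem_union_left _ hA'0⟩, ?_⟩
      intro h
      have : ((A' ∪ Y) + W).card = n := by rw [h]; exact card_univ
      omega
    have h8 := hmin1 _ hUP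
    omega
  -- `A'` is a subgroup
  have hneg : ∀ a ∈ A', -a ∈ A' := by
    intro a ha
    have : -a ∈ (-a) +ᵥ A' := mem_vadd_finset.2 ⟨0, hA'0, by simp⟩
    rwa [hkey a ha] at this
  have hadd : ∀ a ∈ A', ∀ b ∈ A', a + b ∈ A' := by
    intro a ha b hb
    have : -(-a) + b ∈ (-(-a)) +ᵥ A' := mem_vadd_finset.2 ⟨b, hb, by simp⟩
    rw [hkey (-a) (hneg a ha)] at this
    simpa using this
  let H : AddSubgroup G :=
    { carrier := A'
      zero_mem' := hA'0
      add_mem' := fun {a b} ha hb => hadd a ha b hb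
      neg_mem' := fun {a} ha => hneg a ha }
  have h1 := hκ H A' rfl ((hP A').1 hA'P).2
  have h2 := hmin1 X ((hP X).2 ⟨hX, hXW⟩)
  omega

end Fin

end Pool.Agent.MP_d4af01_co
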