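import Pool.Agent.Lib.MP_d4af01_co.Basic

/-!
The improved Olson lemma and the chain of one-element extensions in a group of order `125`.
-/

open Finset
open scoped Pointwise

namespace Pool.Agent.MP_d4af01_co

variable {G : Type*} [AddCommGroup G] [DecidableEq G]

/-- Iterated sumsets. -/
def lev (W : Finset G) : ℕ → Finset G
  | 0 => {0}
  | (j + 1) => lev W j + W

lemma lam_lev (X W : Finset G) (t : ℕ) (h : ∀ w ∈ W, lam X w ≤ t) :
    ∀ j, ∀ g ∈ lev W j, lam X g ≤ j * t := by
  intro j
  induction j with
  | zero =>
    intro g hg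
    simp only [lev, mem_singleton] at hg
    subst hg
    simp [lam_zero]
  | succ j ih =>
    intro g hg
    obtain ⟨a, ha, w, hw, rfl⟩ := mem_add.1 hg
    calc lam X (a + w) ≤ lam X a + lam X w := lam_add X a w
      _ ≤ j * t + t := Nat.add_le_add (ih a ha) (h w hw)
      _ = (j + 1) * t := by ring

/-- The weight `(w0 - 1) + ∑_{2 ≤ j ≤ J+1} j κ`. -/
def wt (w0 κ : ℕ) : ℕ → ℕ
  | 0 => w0 - 1
  | (j + 1) => wt w0 κ j + (j + 2) * κ

section Fin

variable [Fintype G]

theorem exists_Z (W X : Finset G) (h0 : (0 : G) ∈ W) (κ w0 t : ℕ)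
    (hexp : ∀ Y : Finset G, Y.Nonempty → Y + W ≠ univ → Y.card + κ ≤ (Y + W).card)
    (hw0 : w0 ≤ W.card) (hw1 : 1 ≤ w0) (ht : ∀ w ∈ W, lam X w ≤ t) :
    ∀ J, w0 + J * κ ≤ Fintype.card G →
      ∃ Z ⊆ lev W (J + 1), Z.card = w0 + J * κ ∧ ∑ g ∈ Z, lam X g ≤ t * wt w0 κ J := by
  intro J
  induction J with
  | zero =>
    intro _
    obtain ⟨Z, hZ1, hZ2, hZ3⟩ := exists_subsuperset_card_eq
      (s := {0}) (t := W) (n := w0) (by simpa using h0) (by simpa using hw1) hw0
    refine ⟨Z, ?_, by simpa using hZ3, ?_⟩
    · have h1 : lev W (0 + 1) = W := by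
        simp only [lev]
        rw [Finset.singleton_zero, zero_add]
      rw [h1]; exact hZ2
    · have h0Z : (0 : G) ∈ Z := hZ1 (by simp)
      rw [← add_sum_erase Z _ h0Z, lam_zero, zero_add]
      calc ∑ g ∈ Z.erase 0, lam X g ≤ ∑ g ∈ Z.erase 0, t :=
            sum_le_sum fun g hg => ht g (hZ2 (mem_of_mem_erase hg))
        _ = (Z.card - 1) * t := by rw [sum_const, smul_eq_mul, card_erase_of_mem h0Z]
        _ = t * wt w0 κ 0 := by rw [hZ3, wt, mul_comm]
  | succ J ih =>
    intro hJ
    have hJ' : w0 + J * κ ≤ Fintype.card G := by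
      refine le_trans ?_ hJ
      have : J * κ ≤ (J + 1) * κ := Nat.mul_le_mul_right _ (Nat.le_succ J)
      omega
    obtain ⟨Z, hZ1, hZ2, hZ3⟩ := ih hJ'
    have hsub : lev W (J + 1) ⊆ lev W (J + 1 + 1) := by
      intro y hy
      exact mem_add.2 ⟨y, hy, 0, h0, add_zero y⟩
    have hcard : w0 + (J + 1) * κ ≤ (lev W (J + 1 + 1)).card := by
      have h1 : Z.card ≤ (lev W (J + 1)).card := card_le_card hZ1
      have hne : (lev W (J + 1)).Nonempty := by
        rw [← card_pos]; omega
      by_cases hu : lev W (J + 1) + W = univ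
      · have : lev W (J + 1 + 1) = univ := hu
        rw [this, card_univ]; exact hJ
      · have h2 := hexp _ hne hu
        have h3 : lev W (J + 1 + 1) = lev W (J + 1) + W := rfl
        rw [h3]
        have h4 : (J + 1) * κ = J * κ + κ := by ring
        omega
    obtain ⟨Z', hZ'1, hZ'2, hZ'3⟩ := exists_subsuperset_card_eq
      (s := Z) (t := lev W (J + 1 + 1)) (n := w0 + (J + 1) * κ) (hZ1.trans hsub)
      (by rw [hZ2]; have : (J + 1) * κ = J * κ + κ := by ring
          omega) hcard
    refine ⟨Z', hZ'2, hZ'3, ?_⟩
    rw [← sum_sdiff hZ'1]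
    have h5 : ∑ g ∈ Z' \ Z, lam X g ≤ (Z' \ Z).card * ((J + 2) * t) := by
      rw [← smul_eq_mul, ← sum_const]
      exact sum_le_sum fun g hg => lam_lev X W t ht (J + 1 + 1) g (hZ'2 (mem_sdiff.1 hg).1)
    have h6 : (Z' \ Z).card = κ := by
      rw [card_sdiff_of_subset hZ'1, hZ'3, hZ2]
      have : (J + 1) * κ = J * κ + κ := by ring
      omega
    rw [h6] at h5
    calc _ ≤ κ * ((J + 2) * t) + t * wt w0 κ J := Nat.add_le_add h5 hZ3
      _ = t * wt w0 κ (J + 1) := by simp only [wt]; ring

/-- The improved Olson lemma. -/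
theorem olson (W X R : Finset G) (h0 : (0 : G) ∈ W) (κ w0 J x1 : ℕ)
    (hexp : ∀ Y : Finset G, Y.Nonempty → Y + W ≠ univ → Y.card + κ ≤ (Y + W).card)
    (hWR : ∀ w ∈ W, w = 0 ∨ w ∈ R ∨ -w ∈ R)
    (hw0 : w0 ≤ W.card) (hw1 : 1 ≤ w0) (hJ : w0 + J * κ ≤ Fintype.card G)
    (hlt : X.card < x1)
    (hnum : (x1 - 1 - X.card) * wt w0 κ J + X.card * X.card < X.card * (w0 + J * κ) ∨
      (x1 - 1 - X.card) * wt w0 κ J
        + (Fintype.card G - X.card) * (Fintype.card G - X.card)
        < (Fintype.card G - X.card) * (w0 + J * κ)) :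
    ∃ b ∈ R, x1 ≤ (X ∪ (b +ᵥ X)).card := by
  by_contra hcon
  push Not at hcon
  have hR : ∀ b ∈ R, lam X b ≤ x1 - 1 - X.card := by
    intro b hb
    have := hcon b hb
    rw [card_union_vadd] at this
    omega
  have ht : ∀ w ∈ W, lam X w ≤ x1 - 1 - X.card := by
    intro w hw
    rcases hWR w hw with h | h | h
    · subst h; rw [lam_zero]; exact Nat.zero_le _
    · exact hR w h
    · rw [← lam_neg]; exact hR _ h
  rcases hnum with hnum | hnum
  · obtain ⟨Z, _, hZ2, hZ3⟩ := exists_Z W X h0 κ w0 _ hexp hw0 hw1 ht J hJ
    have := lam_sum X Z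
    rw [hZ2] at this
    omega
  · have ht' : ∀ w ∈ W, lam Xᶜ w ≤ x1 - 1 - X.card := by
      intro w hw; rw [lam_compl]; exact ht w hw
    obtain ⟨Z, _, hZ2, hZ3⟩ := exists_Z W Xᶜ h0 κ w0 _ hexp hw0 hw1 ht' J hJ
    have := lam_sum Xᶜ Z
    rw [hZ2, card_compl] at this
    omega

/-- A symmetric set containing `0` in a group of odd order has odd cardinality. -/
lemma odd_card (hodd : Fintype.card G % 2 = 1) (W : Finset G) (h0 : (0 : G) ∈ W)
    (hW : ∀ w ∈ W, -w ∈ W) : W.card % 2 = 1 := by
  have h1 : ∑ x ∈ W.erase 0, (1 : ZMod 2) = 0 := by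
    refine sum_involution (fun x _ => -x) ?_ ?_ ?_ ?_
    · intro x _; decide
    · intro x hx _ h
      have h2 : (2 : ℕ) • x = 0 := by
        rw [two_nsmul]
        nth_rewrite 1 [← h]
        simp
      have h3 : Fintype.card G • x = 0 := card_nsmul_eq_zero
      have h4 : addOrderOf x ∣ 1 := by
        have hc : Nat.Coprime 2 (Fintype.card G) := by
          rw [Nat.coprime_two_left, Nat.odd_iff]; exact hodd
        have := Nat.dvd_gcd (addOrderOf_dvd_of_nsmul_eq_zero h2)
          (addOrderOf_dvd_of_nsmul_eq_zero h3)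
        rwa [hc] at this
      have h5 : x = 0 := by
        have := addOrderOf_dvd_iff_nsmul_eq_zero.1 h4
        simpa using this
      exact (ne_of_mem_erase hx) h5
    · intro x hx
      refine mem_erase.2 ⟨?_, hW x (mem_of_mem_erase hx)⟩
      simpa using ne_of_mem_erase hx
    · intro x _; simp
  rw [sum_const, nsmul_eq_mul, mul_one, ZMod.natCast_eq_zero_iff] at h1
  rw [card_erase_of_mem h0] at h1
  have := card_pos.2 ⟨0, h0⟩
  omega

omit [Fintype G] in
lemma card_dvd_of_subgroup (H : AddSubgroup G) (K W : Finset G) (hK : (K : Set G) = H) :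
    K.card ∣ (K + W).card := by
  refine card_dvd_card_add_left ?_
  rintro _ ⟨b, _, rfl⟩ _ ⟨c, _, rfl⟩ hne
  simp only [Function.onFun, id]
  rw [disjoint_left]
  intro x hx hx'
  apply hne
  simp only [mem_image] at hx hx'
  obtain ⟨a, ha, rfl⟩ := hx
  obtain ⟨a', ha', h⟩ := hx'
  have haH : a ∈ H := by rw [← SetLike.mem_coe, ← hK]; exact ha
  have haH' : a' ∈ H := by rw [← SetLike.mem_coe, ← hK]; exact ha'
  ext y
  simp only [mem_image]
  constructor
  · rintro ⟨z, hz, rfl⟩
    have hzH : z ∈ H := by rw [← SetLike.mem_coe, ← hK]; exact hz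
    refine ⟨z - a + a', ?_, ?_⟩
    · have : z - a + a' ∈ H := H.add_mem (H.sub_mem hzH haH) haH'
      rw [← SetLike.mem_coe, ← hK] at this; exact this
    · rw [add_assoc, h]; abel
  · rintro ⟨z, hz, rfl⟩
    have hzH : z ∈ H := by rw [← SetLike.mem_coe, ← hK]; exact hz
    refine ⟨z - a' + a, ?_, ?_⟩
    · have : z - a' + a ∈ H := H.add_mem (H.sub_mem hzH haH') haH
      rw [← SetLike.mem_coe, ← hK] at this; exact this
    · rw [add_assoc, ← h]; abel

/-- One step of the chain. -/
theorem chain_step (hG : Fintype.card G = 125) (S : Finset G) (hS0 : (0 : G) ∉ S)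
    (hS : ∀ H : AddSubgroup G, ∀ K : Finset G, (K : Set G) = H → K.card = 25 →
      (S ∩ K).card ≤ 8)
    (r w0 κ J x0 x1 : ℕ) (hr : 9 ≤ r) (hwr : w0 ≤ r + 2) (hwo : w0 % 2 = 1) (hw11 : 11 ≤ w0)
    (hκ1 : κ + 1 ≤ w0) (hκ5 : ∀ m, m % 2 = 1 → w0 ≤ 5 * m → κ + 5 ≤ 5 * m) (hκ25 : κ ≤ 25)
    (hJ : w0 + J * κ ≤ 125)
    (hnum : ∀ x, x < x1 → x0 ≤ x →
      ((x1 - 1 - x) * wt w0 κ J + x * x < x * (w0 + J * κ) ∨
      (x1 - 1 - x) * wt w0 κ J + (125 - x) * (125 - x) < (125 - x) * (w0 + J * κ)))
    (h : ∃ B ⊆ S, (S \ B).card = r ∧ x0 ≤ (ss B).card) :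
    ∃ B ⊆ S, (S \ B).card = r - 1 ∧ x1 ≤ (ss B).card := by
  obtain ⟨B, hBS, hBr, hBx⟩ := h
  set R := S \ B with hR
  have hkey : ∃ b ∈ R, x1 ≤ (ss B ∪ (b +ᵥ ss B)).card := by
    by_cases hlt : (ss B).card < x1
    · -- the symmetric set
      set W : Finset G := insert 0 (R ∪ R.image (fun x => -x)) with hW
      have h0W : (0 : G) ∈ W := mem_insert_self _ _
      have hWn : ∀ w ∈ W, -w ∈ W := by
        intro w hw
        simp only [hW, mem_insert, mem_union, mem_image] at hw ⊢
        rcases hw with h | h | ⟨y, hy, rfl⟩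
        · left; simp [h]
        · right; right; exact ⟨w, h, rfl⟩
        · right; left; simpa using hy
      have hWR : ∀ w ∈ W, w = 0 ∨ w ∈ R ∨ -w ∈ R := by
        intro w hw
        simp only [hW, mem_insert, mem_union, mem_image] at hw
        rcases hw with h | h | ⟨y, hy, rfl⟩
        · exact Or.inl h
        · exact Or.inr (Or.inl h)
        · right; right; simpa using hy
      have h0R : (0 : G) ∉ R := fun h => hS0 (mem_sdiff.1 h).1
      have hRW : insert 0 R ⊆ W := insert_subset_insert _ subset_union_left
      have hWcard1 : r + 1 ≤ W.card := by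
        have := card_le_card hRW
        rw [card_insert_of_notMem h0R, hBr] at this
        exact this
      have hWodd := odd_card (by rw [hG]) W h0W hWn
      have hw0W : w0 ≤ W.card := by omega
      have hexp : ∀ Y : Finset G, Y.Nonempty → Y + W ≠ univ → Y.card + κ ≤ (Y + W).card := by
        refine fun Y hY hYW => isoperimetric W h0W hWn κ ?_ Y hY hYW
        intro H K hK hKW
        have hdvd : K.card ∣ 125 := by
          have : K.card = Nat.card H := by
            have h2 : Nat.card H = Nat.card (H : Set G) := rfl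
            rw [h2, ← hK]
            simp
          rw [this, ← hG, ← Nat.card_eq_fintype_card]
          exact H.card_addSubgroup_dvd_card
        have h0K : (0 : G) ∈ K := by
          have : (0 : G) ∈ (K : Set G) := by rw [hK]; exact H.zero_mem
          exact this
        have hWK : W ⊆ K + W := by
          intro w hw
          exact mem_add.2 ⟨0, h0K, w, hw, zero_add w⟩
        have hKK : K ⊆ K + W := by
          intro w hw
          exact mem_add.2 ⟨w, hw, 0, h0W, add_zero w⟩
        have hWKc : w0 ≤ (K + W).card := hw0W.trans (card_le_card hWK)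
        obtain ⟨m, hm⟩ := card_dvd_of_subgroup H K W hK
        have hKWodd : (K + W).card % 2 = 1 := by
          refine odd_card (by rw [hG]) (K + W) (hWK h0W) ?_
          intro x hx
          obtain ⟨a, ha, w, hw, rfl⟩ := mem_add.1 hx
          refine mem_add.2 ⟨-a, ?_, -w, hWn w hw, by abel⟩
          have h1 : a ∈ H := by rw [← SetLike.mem_coe, ← hK]; exact ha
          have h2 : -a ∈ H := H.neg_mem h1
          rw [← SetLike.mem_coe, ← hK] at h2
          exact h2
        have h125 : (125 : ℕ) = 5 ^ 3 := by norm_num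
        rw [h125] at hdvd
        obtain ⟨k, hk, hKc⟩ := (Nat.dvd_prime_pow Nat.prime_five).1 hdvd
        interval_cases k
        · -- trivial subgroup
          rw [hKc]; omega
        · -- order 5
          norm_num at hKc
          rw [hKc] at hm ⊢
          have hmo : m % 2 = 1 := by omega
          have := hκ5 m hmo (by omega)
          omega
        · -- order 25
          norm_num at hKc
          have h8 := hS H K hK hKc
          have : ∃ b ∈ R, b ∉ K := by
            by_contra hcon
            push Not at hcon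
            have : R ⊆ S ∩ K := fun x hx => mem_inter.2 ⟨(mem_sdiff.1 hx).1, hcon x hx⟩
            have := card_le_card this
            omega
          obtain ⟨b, hbR, hbK⟩ := this
          have hss : insert b K ⊆ K + W := by
            intro x hx
            rcases mem_insert.1 hx with h | h
            · subst h; exact hWK (hRW (mem_insert_of_mem hbR))
            · exact hKK h
          have := card_le_card hss
          rw [card_insert_of_notMem hbK] at this
          rw [hKc] at hm this ⊢
          have : 2 ≤ m := by omega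
          omega
        · -- everything
          exfalso
          apply hKW
          have : K = univ := by
            rw [← card_eq_iff_eq_univ, hKc, hG]; norm_num
          rw [this]
          rw [eq_univ_iff_forall]
          intro x
          exact mem_add.2 ⟨x, mem_univ _, 0, h0W, add_zero x⟩
      refine olson W (ss B) R h0W κ w0 J x1 hexp hWR hw0W (by omega) (by rw [hG]; exact hJ) hlt ?_
      rw [hG]
      exact hnum _ hlt hBx
    · push Not at hlt
      have hRne : R.Nonempty := by rw [← card_pos]; omega
      obtain ⟨b, hb⟩ := hRne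
      exact ⟨b, hb, hlt.trans (card_le_card subset_union_left)⟩
  obtain ⟨b, hbR, hb⟩ := hkey
  have hbB : b ∉ B := (mem_sdiff.1 hbR).2
  have hbS : b ∈ S := (mem_sdiff.1 hbR).1
  refine ⟨insert b B, insert_subset hbS hBS, ?_, ?_⟩
  · have : S \ insert b B = R.erase b := by
      ext x; simp only [hR, mem_sdiff, mem_insert, mem_erase]; tauto
    rw [this, card_erase_of_mem hbR, hBr]
  · rw [ss_insert hbB]; exact hb

/-- After nineteen steps, eight elements are left and at least `116` sums are present. -/
theorem chain (hG : Fintype.card G = 125) (S : Finset G) (hS0 : (0 : G) ∉ S)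
    (hcard : S.card = 27)
    (hS : ∀ H : AddSubgroup G, ∀ K : Finset G, (K : Set G) = H → K.card = 25 →
      (S ∩ K).card ≤ 8) :
    ∃ B ⊆ S, (S \ B).card = 8 ∧ 116 ≤ (ss B).card := by
  have h27 : ∃ B ⊆ S, (S \ B).card = 27 ∧ 1 ≤ (ss B).card := by
    refine ⟨∅, empty_subset _, by simpa using hcard, ?_⟩
    rw [ss_empty]; simp
  have h26 := chain_step hG S hS0 hS 27 27 0 0 1 2 (by norm_num) (by norm_num) (by norm_num)
    (by norm_num) (by norm_num) (fun m _ _ => by omega) (by norm_num) (by norm_num)
    (by intro x h1 h2; interval_cases x <;> decide) h27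
  have h25 := chain_step hG S hS0 hS 26 27 0 0 2 4 (by norm_num) (by norm_num) (by norm_num)
    (by norm_num) (by norm_num) (fun m _ _ => by omega) (by norm_num) (by norm_num)
    (by intro x h1 h2; interval_cases x <;> decide) h26
  have h24 := chain_step hG S hS0 hS 25 27 0 0 4 8 (by norm_num) (by norm_num) (by norm_num)
    (by norm_num) (by norm_num) (fun m _ _ => by omega) (by norm_num) (by norm_num)
    (by intro x h1 h2; interval_cases x <;> decide) h25
  have h23 := chain_step hG S hS0 hS 24 25 0 0 8 14 (by norm_num) (by norm_num) (by norm_num)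
    (by norm_num) (by norm_num) (fun m _ _ => by omega) (by norm_num) (by norm_num)
    (by intro x h1 h2; interval_cases x <;> decide) h24
  have h22 := chain_step hG S hS0 hS 23 25 0 0 14 21 (by norm_num) (by norm_num) (by norm_num)
    (by norm_num) (by norm_num) (fun m _ _ => by omega) (by norm_num) (by norm_num)
    (by intro x h1 h2; interval_cases x <;> decide) h23
  have h21 := chain_step hG S hS0 hS 22 23 20 1 21 29 (by norm_num) (by norm_num) (by norm_num)
    (by norm_num) (by norm_num) (fun m _ _ => by omega) (by norm_num) (by norm_num)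
    (by intro x h1 h2; interval_cases x <;> decide) h22
  have h20 := chain_step hG S hS0 hS 21 23 20 2 29 38 (by norm_num) (by norm_num) (by norm_num)
    (by norm_num) (by norm_num) (fun m _ _ => by omega) (by norm_num) (by norm_num)
    (by intro x h1 h2; interval_cases x <;> decide) h21
  have h19 := chain_step hG S hS0 hS 20 21 20 3 38 47 (by norm_num) (by norm_num) (by norm_num)
    (by norm_num) (by norm_num) (fun m _ _ => by omega) (by norm_num) (by norm_num)
    (by intro x h1 h2; interval_cases x <;> decide) h20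
  have h18 := chain_step hG S hS0 hS 19 21 20 4 47 56 (by norm_num) (by norm_num) (by norm_num)
    (by norm_num) (by norm_num) (fun m _ _ => by omega) (by norm_num) (by norm_num)
    (by intro x h1 h2; interval_cases x <;> decide) h19
  have h17 := chain_step hG S hS0 hS 18 19 18 5 56 64 (by norm_num) (by norm_num) (by norm_num)
    (by norm_num) (by norm_num) (fun m _ _ => by omega) (by norm_num) (by norm_num)
    (by intro x h1 h2; interval_cases x <;> decide) h18
  have h16 := chain_step hG S hS0 hS 17 19 18 5 64 72 (by norm_num) (by norm_num) (by norm_num)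
    (by norm_num) (by norm_num) (fun m _ _ => by omega) (by norm_num) (by norm_num)
    (by intro x h1 h2; interval_cases x <;> decide) h17
  have h15 := chain_step hG S hS0 hS 16 17 16 6 72 80 (by norm_num) (by norm_num) (by norm_num)
    (by norm_num) (by norm_num) (fun m _ _ => by omega) (by norm_num) (by norm_num)
    (by intro x h1 h2; interval_cases x <;> decide) h16
  have h14 := chain_step hG S hS0 hS 15 17 16 5 80 87 (by norm_num) (by norm_num) (by norm_num)
    (by norm_num) (by norm_num) (fun m _ _ => by omega) (by norm_num) (by norm_num)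
    (by intro x h1 h2; interval_cases x <;> decide) h15
  have h13 := chain_step hG S hS0 hS 14 15 10 5 87 92 (by norm_num) (by norm_num) (by norm_num)
    (by norm_num) (by norm_num) (fun m _ _ => by omega) (by norm_num) (by norm_num)
    (by intro x h1 h2; interval_cases x <;> decide) h14
  have h12 := chain_step hG S hS0 hS 13 15 10 4 92 97 (by norm_num) (by norm_num) (by norm_num)
    (by norm_num) (by norm_num) (fun m _ _ => by omega) (by norm_num) (by norm_num)
    (by intro x h1 h2; interval_cases x <;> decide) h13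
  have h11 := chain_step hG S hS0 hS 12 13 10 3 97 102 (by norm_num) (by norm_num) (by norm_num)
    (by norm_num) (by norm_num) (fun m _ _ => by omega) (by norm_num) (by norm_num)
    (by intro x h1 h2; interval_cases x <;> decide) h12
  have h10 := chain_step hG S hS0 hS 11 13 10 3 102 107 (by norm_num) (by norm_num) (by norm_num)
    (by norm_num) (by norm_num) (fun m _ _ => by omega) (by norm_num) (by norm_num)
    (by intro x h1 h2; interval_cases x <;> decide) h11
  have h9 := chain_step hG S hS0 hS 10 11 10 3 107 112 (by norm_num) (by norm_num) (by norm_num)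
    (by norm_num) (by norm_num) (fun m _ _ => by omega) (by norm_num) (by norm_num)
    (by intro x h1 h2; interval_cases x <;> decide) h10
  exact chain_step hG S hS0 hS 9 11 10 2 112 116 (by norm_num) (by norm_num) (by norm_num)
    (by norm_num) (by norm_num) (fun m _ _ => by omega) (by norm_num) (by norm_num)
    (by intro x h1 h2; interval_cases x <;> decide) h9

omit [Fintype G] in
/-- Growth by one element, unless a full subgroup is covered. -/
lemma growth (X : Finset G) (hX : X.Nonempty) (g : G) :
    min (X.card + 1) (addOrderOf g) ≤ (X ∪ (g +ᵥ X)).card := by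
  by_cases h : lam X g = 0
  · -- `X` is periodic
    have hsub : g +ᵥ X ⊆ X := by
      unfold lam at h
      rw [card_eq_zero, sdiff_eq_empty_iff_subset] at h
      exact h
    have heq : g +ᵥ X = X := eq_of_subset_of_card_le hsub (card_vadd_finset g X).ge
    obtain ⟨x, hx⟩ := hX
    have hmul : ∀ k : ℕ, k • g + x ∈ X := by
      intro k
      induction k with
      | zero => simpa using hx
      | succ k ih =>
        have : g +ᵥ (k • g + x) ∈ g +ᵥ X := vadd_mem_vadd_finset ih
        rw [heq, vadd_eq_add] at this
        rw [succ_nsmul]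
        convert this using 1
        abel
    have h1 : addOrderOf g ≤ X.card := by
      have h2 : ((range (addOrderOf g)).image (fun k => k • g + x)).card = addOrderOf g := by
        rw [card_image_of_injOn, card_range]
        intro a ha b hb hab
        simp only [add_left_inj] at hab
        exact nsmul_injOn_Iio_addOrderOf (by simpa using ha) (by simpa using hb) hab
      rw [← h2]
      refine card_le_card ?_
      intro y hy
      obtain ⟨k, _, rfl⟩ := mem_image.1 hy
      exact hmul k
    exact le_trans (min_le_right _ _) (h1.trans (card_le_card subset_union_left))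
  · rw [card_union_vadd]
    exact le_trans (min_le_left _ _) (by omega)

omit [Fintype G] in
/-- If every element of `S` has order at least `m`, then there are at least
`min (|S| + 1) m` subset sums. -/
lemma card_ss_ge (m : ℕ) (S : Finset G) (h : ∀ s ∈ S, m ≤ addOrderOf s) :
    min (S.card + 1) m ≤ (ss S).card := by
  induction S using Finset.induction_on with
  | empty => rw [ss_empty]; simp
  | insert a S ha ih =>
    rw [ss_insert ha, card_insert_of_notMem ha]
    have h1 := ih (fun s hs => h s (mem_insert_of_mem hs))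
    have h2 := growth (ss S) (ss_nonempty S) a
    have h3 := h a (mem_insert_self _ _)
    omega

end Fin

end Pool.Agent.MP_d4af01_co
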