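import Pool.Agent.Lib.MP_d4af01_co.Search

/-!
Nine nonzero elements of a group of order `25` have all elements as subset sums.
-/

open Finset
open scoped Pointwise

namespace Pool.Agent.MP_d4af01_co

lemma testBit_col1_iter (b : ℕ) : ∀ (m x y : ℕ), x < 5 → y < 5 →
    (col1^[b] m).testBit (5 * x + y) = m.testBit (5 * x + (y + 4 * b) % 5) := by
  induction b with
  | zero =>
    intro m x y hx hy
    simp [Nat.mod_eq_of_lt hy]
  | succ b ih =>
    intro m x y hx hy
    rw [Function.iterate_succ, Function.comp_apply, ih (col1 m) x y hx hy,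
      testBit_col1 m x _ hx (Nat.mod_lt _ (by norm_num))]
    congr 2
    split_ifs with h <;> omega

lemma col1_iter_lt (b m : ℕ) (hm : m < 2 ^ 25) : col1^[b] m < 2 ^ 25 := by
  cases b with
  | zero => exact hm
  | succ b =>
    rw [Function.iterate_succ', Function.comp_apply]
    exact col1_lt _

/-- Nine nonzero elements of `ZMod 5 × ZMod 5`. -/
theorem nine_prod (T : Finset (ZMod 5 × ZMod 5)) (h0 : (0 : ZMod 5 × ZMod 5) ∉ T)
    (hT : T.card = 9) : ss T = univ := by
  have key := chk_sound (H := ZMod 5 × ZMod 5) (fun h => 5 * h.1.val + h.2.val)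
    (fun a : ℕ × ℕ => ((a.1 : ZMod 5), (a.2 : ZMod 5))) sh5
    (fun h => testBit_full _ (by
      have := ZMod.val_lt h.1; have := ZMod.val_lt h.2; omega))
    (fun a m => rot_lt _ _) l5 (by decide) ?_ 9 1 {0} (by norm_num) ?_
    chk5 T ?_ hT
  · rwa [Finset.singleton_zero, zero_add] at key
  · intro p hp a ha m hm h
    have hl : ∀ p ∈ l5, (p.1.1 < 5 ∧ p.1.2 < 5) ∧ (p.2.1 < 5 ∧ p.2.2 < 5) := by decide
    have ha5 : a.1 < 5 ∧ a.2 < 5 := by
      rcases ha with rfl | rfl
      · exact (hl p hp).1
      · exact (hl p hp).2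
    have hv : ∀ a : ℕ, a < 5 → ∀ h : ZMod 5, (h - (a : ZMod 5)).val =
        if a ≤ h.val then h.val - a else 5 + h.val - a := by decide
    have hw : ∀ a : ℕ, a < 5 → ∀ h : ZMod 5, (h - (a : ZMod 5)).val =
        (h.val + 4 * a) % 5 := by decide
    show (sh5 a m).testBit (5 * h.1.val + h.2.val) =
      m.testBit (5 * (h.1 - (a.1 : ZMod 5)).val + (h.2 - (a.2 : ZMod 5)).val)
    have h1 := ZMod.val_lt h.1
    have h2 := ZMod.val_lt h.2
    unfold sh5
    rw [testBit_rot' _ _ _ (by omega) (col1_iter_lt _ _ hm) (by omega), hv a.1 ha5.1 h.1,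
      hw a.2 ha5.2 h.2]
    by_cases hle : a.1 ≤ h.1.val
    · rw [if_pos (by omega), if_pos hle]
      have : 5 * h.1.val + h.2.val - 5 * a.1 = 5 * (h.1.val - a.1) + h.2.val := by omega
      rw [this, testBit_col1_iter _ _ _ _ (by omega) h2]
    · rw [if_neg (by omega), if_neg hle]
      have : 25 + (5 * h.1.val + h.2.val) - 5 * a.1 = 5 * (5 + h.1.val - a.1) + h.2.val := by omega
      rw [this, testBit_col1_iter _ _ _ _ (by omega) h2]
  · intro h
    revert h
    decide
  · intro t ht
    have h1 : t ≠ 0 := fun h => h0 (h ▸ ht)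
    have : ∀ t : ZMod 5 × ZMod 5, t ≠ 0 → ∃ p ∈ l5,
        t = ((p.1.1 : ZMod 5), (p.1.2 : ZMod 5)) ∨ t = ((p.2.1 : ZMod 5), (p.2.2 : ZMod 5)) := by
      decide
    exact this t h1

section

variable {H K : Type*} [AddCommGroup H] [DecidableEq H] [AddCommGroup K] [DecidableEq K]

lemma ss_map (f : H ≃+ K) (T : Finset H) : ss (T.image f) = (ss T).image f := by
  ext k
  simp only [mem_image, mem_ss]
  constructor
  · rintro ⟨B, hB, rfl⟩
    obtain ⟨C, hC, rfl⟩ := subset_image_iff.1 hB
    refine ⟨_, ⟨C, hC, rfl⟩, ?_⟩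
    rw [sum_image (fun x _ y _ h => f.injective h), map_sum]
  · rintro ⟨_, ⟨C, hC, rfl⟩, rfl⟩
    refine ⟨C.image f, image_subset_image hC, ?_⟩
    rw [sum_image (fun x _ y _ h => f.injective h), map_sum]

lemma nine_transfer [Fintype H] [Fintype K] (f : H ≃+ K)
    (hK : ∀ T : Finset K, (0 : K) ∉ T → T.card = 9 → ss T = univ)
    (T : Finset H) (h0 : (0 : H) ∉ T) (hT : T.card = 9) : ss T = univ := by
  have h1 := hK (T.image f) (by
    intro h
    obtain ⟨x, hx, hx0⟩ := mem_image.1 h
    have : x = 0 := by simpa using hx0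
    exact h0 (this ▸ hx)) (by rw [card_image_of_injective _ f.injective, hT])
  rw [ss_map, eq_univ_iff_forall] at h1
  rw [eq_univ_iff_forall]
  intro x
  obtain ⟨y, hy, hxy⟩ := mem_image.1 (h1 (f x))
  exact f.injective hxy ▸ hy

end

/-- Nine nonzero elements of a group of order `25`. -/
theorem nine {H : Type*} [AddCommGroup H] [Fintype H] [DecidableEq H]
    (hH : Fintype.card H = 25) (T : Finset H) (h0 : (0 : H) ∉ T) (hT : 9 ≤ T.card) :
    ss T = univ := by
  have hmain : ∀ T : Finset H, (0 : H) ∉ T → T.card = 9 → ss T = univ := by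
    by_cases hc : IsAddCyclic H
    · have f : ZMod 25 ≃+ H := by
        have := zmodAddCyclicAddEquiv hc
        rwa [Nat.card_eq_fintype_card, hH] at this
      exact nine_transfer f.symm nine_zmod25
    · -- exponent five
      have h5 : ∀ x : H, 5 • x = 0 := by
        intro x
        have hdvd : addOrderOf x ∣ 5 ^ 2 := by
          have := addOrderOf_dvd_card (x := x)
          rw [hH] at this
          exact this
        obtain ⟨k, hk, hx⟩ := (Nat.dvd_prime_pow Nat.prime_five).1 hdvd
        interval_cases k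
        · have : x = 0 := by simpa using hx
          simp [this]
        · rw [pow_one] at hx
          rw [← hx]; exact addOrderOf_nsmul_eq_zero x
        · exfalso
          apply hc
          refine isAddCyclic_of_addOrderOf_eq_card x ?_
          rw [hx, Nat.card_eq_fintype_card, hH]; norm_num
      have : Fact (Nat.Prime 5) := ⟨Nat.prime_five⟩
      let _ : Module (ZMod 5) H := AddCommGroup.zmodModule h5
      have hfin : Module.finrank (ZMod 5) H = 2 := by
        have := Module.card_eq_pow_finrank (K := ZMod 5) (V := H)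
        rw [hH, ZMod.card] at this
        have h25 : (25 : ℕ) = 5 ^ 2 := by norm_num
        rw [h25] at this
        exact (Nat.pow_right_injective (le_refl 2 |>.trans (by norm_num)) this).symm
      have f : H ≃ₗ[ZMod 5] (ZMod 5 × ZMod 5) := LinearEquiv.ofFinrankEq _ _ (by
        rw [hfin, Module.finrank_prod, Module.finrank_self])
      exact nine_transfer f.toAddEquiv nine_prod
  obtain ⟨T', hT', hc⟩ := exists_subset_card_eq hT
  have := hmain T' (fun h => h0 (hT' h)) hc
  rw [← univ_subset_iff, ← this]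
  exact ss_mono hT'

end Pool.Agent.MP_d4af01_co
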