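import Pool.Agent.Lib.MP_d4af01_co.Chain
import Pool.Agent.Lib.MP_d4af01_co.Nine

/-!
Subsets of size at least `27` of the nonzero elements of a group of order `125` whose subset
sums do not cover the group.
-/

open Finset
open scoped Pointwise

namespace Pool.Agent.MP_d4af01_co

variable {G : Type*} [AddCommGroup G] [DecidableEq G]

/-- Growth in a quotient. -/
lemma image_growth {Q : Type*} [AddCommGroup Q] [DecidableEq Q] (φ : G →+ Q) (m : ℕ)
    (X : Finset G) (hX : X.Nonempty) (S : Finset G) (h : ∀ s ∈ S, m ≤ addOrderOf (φ s)) :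
    min ((X.image φ).card + S.card) m ≤ ((X + ss S).image φ).card := by
  induction S using Finset.induction_on with
  | empty =>
    rw [ss_empty, Finset.singleton_zero, add_zero]; simp
  | insert a S ha ih =>
    have h1 := ih (fun s hs => h s (mem_insert_of_mem hs))
    have hne : ((X + ss S).image φ).Nonempty := (hX.add (ss_nonempty S)).image φ
    have h2 := growth ((X + ss S).image φ) hne (φ a)
    have h3 := h a (mem_insert_self _ _)
    have h4 : (X + ss (insert a S)).image φ =
        (X + ss S).image φ ∪ (φ a +ᵥ (X + ss S).image φ) := by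
      rw [ss_insert ha, add_union, image_union]
      congr 1
      ext q
      simp only [mem_image, mem_add, mem_vadd_finset, vadd_eq_add]
      constructor
      · rintro ⟨_, ⟨x, hx, _, ⟨s, hs, rfl⟩, rfl⟩, rfl⟩
        exact ⟨φ (x + s), ⟨x + s, ⟨x, hx, s, hs, rfl⟩, rfl⟩, by simp only [map_add]; abel⟩
      · rintro ⟨_, ⟨_, ⟨x, hx, s, hs, rfl⟩, rfl⟩, rfl⟩
        exact ⟨x + (a + s), ⟨x, hx, a + s, ⟨s, hs, rfl⟩, rfl⟩, by simp only [map_add]; abel⟩
    rw [h4, card_insert_of_notMem ha]
    omega

variable [Fintype G]

lemma add_eq_univ_of_card (X Y : Finset G) (h : Fintype.card G < X.card + Y.card) :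
    X + Y = univ := by
  rw [eq_univ_iff_forall]
  intro g
  by_contra hg
  have hdis : Disjoint (X.image (fun x => g - x)) Y := by
    rw [disjoint_left]
    intro y hy hyY
    obtain ⟨x, hx, rfl⟩ := mem_image.1 hy
    exact hg (mem_add.2 ⟨x, hx, g - x, hyY, by abel⟩)
  have h1 := card_le_univ (X.image (fun x => g - x) ∪ Y)
  rw [card_union_of_disjoint hdis, card_image_of_injective _ (sub_right_injective)] at h1
  omega

omit [DecidableEq G] in
lemma order_ge_five (hG : ∃ k, Fintype.card G = 5 ^ k) (x : G) (hx : x ≠ 0) :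
    5 ≤ addOrderOf x := by
  obtain ⟨k, hk⟩ := hG
  have hdvd : addOrderOf x ∣ 5 ^ k := by
    rw [← hk]; exact addOrderOf_dvd_card
  obtain ⟨j, _, hj⟩ := (Nat.dvd_prime_pow Nat.prime_five).1 hdvd
  have : j ≠ 0 := by
    rintro rfl
    exact hx (by simpa using hj)
  rw [hj]
  calc 5 = 5 ^ 1 := by norm_num
    _ ≤ 5 ^ j := Nat.pow_le_pow_right (by norm_num) (by omega)

/-- Eight nonzero elements have at least ten subset sums. -/
lemma ten_le (hG : Fintype.card G = 125) (R : Finset G) (h0 : (0 : G) ∉ R)
    (hR : R.card = 8) : 10 ≤ (ss R).card := by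
  have hG' : ∃ k, Fintype.card G = 5 ^ k := ⟨3, by rw [hG]; norm_num⟩
  by_cases hall : ∀ x ∈ R, 25 ≤ addOrderOf x
  · obtain ⟨a, ha⟩ : R.Nonempty := by rw [← card_pos]; omega
    have h1 : ((R.erase a).erase (-a)).Nonempty := by
      rw [← card_pos]
      have h2 := pred_card_le_card_erase (s := R.erase a) (a := -a)
      have h3 := card_erase_of_mem ha
      omega
    obtain ⟨b, hb⟩ := h1
    have hb1 : b ≠ -a := ne_of_mem_erase hb
    have hb2 : b ≠ a := ne_of_mem_erase (mem_of_mem_erase hb)
    have hb3 : b ∈ R := mem_of_mem_erase (mem_of_mem_erase hb)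
    have ha0 : a ≠ 0 := fun h => h0 (h ▸ ha)
    have hb0 : b ≠ 0 := fun h => h0 (h ▸ hb3)
    have hab : ({a, b} : Finset G) ⊆ R := by
      intro x hx
      simp only [mem_insert, mem_singleton] at hx
      rcases hx with rfl | rfl
      · exact ha
      · exact hb3
    have hX : 4 ≤ (ss ({a, b} : Finset G)).card := by
      have h4 : ({0, a, b, a + b} : Finset G) ⊆ ss {a, b} := by
        intro x hx
        simp only [mem_insert, mem_singleton] at hx
        rw [mem_ss]
        rcases hx with rfl | rfl | rfl | rfl
        · exact ⟨∅, empty_subset _, by simp⟩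
        · exact ⟨{x}, by simp, by simp⟩
        · exact ⟨{x}, by simp, by simp⟩
        · exact ⟨{a, b}, subset_rfl, by rw [sum_pair hb2.symm]⟩
      have h5 : ({0, a, b, a + b} : Finset G).card = 4 := by
        rw [card_insert_of_notMem, card_insert_of_notMem, card_insert_of_notMem, card_singleton]
        · simp only [mem_singleton]
          intro h; exact ha0 (by simpa using h.symm)
        · simp only [mem_insert, mem_singleton, not_or]
          refine ⟨hb2.symm, fun h => hb0 (by simpa using h.symm)⟩
        · simp only [mem_insert, mem_singleton, not_or]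
          refine ⟨ha0.symm, hb0.symm, fun h => hb1 ?_⟩
          rw [eq_neg_iff_add_eq_zero, add_comm]; exact h.symm
      rw [← h5]; exact card_le_card h4
    have hcard : (R \ {a, b}).card = 6 := by
      rw [card_sdiff_of_subset hab, card_pair hb2.symm, hR]
    have h6 := image_growth (AddMonoidHom.id G) 25 (ss {a, b}) (ss_nonempty _) (R \ {a, b})
      (fun s hs => hall s (mem_sdiff.1 hs).1)
    rw [← ss_union disjoint_sdiff, union_sdiff_of_subset hab] at h6
    simp only [AddMonoidHom.coe_id, image_id] at h6
    omega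
  · push Not at hall
    obtain ⟨a, ha, ha25⟩ := hall
    have ha0 : a ≠ 0 := fun h => h0 (h ▸ ha)
    have ha5 : addOrderOf a = 5 := by
      have hdvd : addOrderOf a ∣ 5 ^ 3 := by
        have := addOrderOf_dvd_card (x := a)
        rw [hG] at this
        exact this
      obtain ⟨k, hk, hx⟩ := (Nat.dvd_prime_pow Nat.prime_five).1 hdvd
      interval_cases k
      · exact absurd (by simpa using hx) ha0
      · simpa using hx
      · omega
      · omega
    let H := AddSubgroup.zmultiples a
    have hHcard : Nat.card H = 5 := by rw [Nat.card_zmultiples, ha5]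
    classical
    let K : Finset G := univ.filter (fun x => x ∈ H)
    have hK : ∀ x, x ∈ K ↔ x ∈ H := by intro x; simp [K]
    have hKcard : K.card = 5 := by
      rw [← hHcard, Nat.card_eq_fintype_card, Fintype.card_subtype]
    have hRK : (R ∩ K).card ≤ 4 := by
      have h1 : R ∩ K ⊆ K.erase 0 := by
        intro x hx
        rw [mem_inter] at hx
        exact mem_erase.2 ⟨fun h => h0 (h ▸ hx.1), hx.2⟩
      have h2 := card_le_card h1
      rw [card_erase_of_mem ((hK 0).2 H.zero_mem), hKcard] at h2
      exact h2
    have hRK' : 4 ≤ (R \ K).card := by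
      have := card_sdiff_add_card_inter R K
      omega
    let φ : G →+ G ⧸ H := QuotientAddGroup.mk' H
    have hφ : ∀ x, φ x = 0 ↔ x ∈ H := fun x => QuotientAddGroup.eq_zero_iff x
    have : Fintype (G ⧸ H) := Fintype.ofFinite _
    have hQ : ∃ k, Fintype.card (G ⧸ H) = 5 ^ k := by
      have h1 := AddSubgroup.card_eq_card_quotient_mul_card_addSubgroup H
      rw [hHcard, Nat.card_eq_fintype_card, hG, Nat.card_eq_fintype_card] at h1
      exact ⟨2, by omega⟩
    have h5 := image_growth φ 5 {0} (singleton_nonempty _) (R \ K) (by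
      intro s hs
      refine order_ge_five hQ _ ?_
      rw [Ne, hφ]
      intro h
      exact (mem_sdiff.1 hs).2 ((hK s).2 h))
    rw [Finset.singleton_zero, zero_add] at h5
    have h6 : 5 ≤ ((ss (R \ K)).image φ).card := by
      have : (((0 : Finset G).image φ).card) = 1 := by
        rw [← Finset.singleton_zero, image_singleton, card_singleton]
      omega
    -- two sums in each coset
    have ha' : a ∉ R \ K := by
      intro h
      exact (mem_sdiff.1 h).2 ((hK a).2 (AddSubgroup.mem_zmultiples a))
    have hsub : ss (insert a (R \ K)) ⊆ ss R := ss_mono (by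
      intro x hx
      rcases mem_insert.1 hx with h | h
      · exact h ▸ ha
      · exact (mem_sdiff.1 h).1)
    refine le_trans ?_ (card_le_card hsub)
    have h7 : (ss (insert a (R \ K))).image φ = (ss (R \ K)).image φ := by
      rw [ss_insert ha', image_union]
      have : (a +ᵥ ss (R \ K)).image φ = (ss (R \ K)).image φ := by
        ext q
        simp only [mem_image, mem_vadd_finset, vadd_eq_add]
        have hφa : φ a = 0 := (hφ a).2 (AddSubgroup.mem_zmultiples a)
        constructor
        · rintro ⟨_, ⟨y, hy, rfl⟩, rfl⟩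
          exact ⟨y, hy, by rw [map_add, hφa, zero_add]⟩
        · rintro ⟨y, hy, rfl⟩
          exact ⟨a + y, ⟨y, hy, rfl⟩, by rw [map_add, hφa, zero_add]⟩
      rw [this, union_self]
    have h8 := mul_card_image_le_card (f := φ) (ss (insert a (R \ K))) 2 (by
      intro q hq
      rw [h7] at hq
      obtain ⟨y, hy, rfl⟩ := mem_image.1 hq
      have hφa : φ a = 0 := (hφ a).2 (AddSubgroup.mem_zmultiples a)
      have h9 : ({y, a + y} : Finset G) ⊆
          (ss (insert a (R \ K))).filter (fun x => φ x = φ y) := by
        intro x hx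
        simp only [mem_insert, mem_singleton] at hx
        rw [mem_filter, ss_insert ha']
        rcases hx with rfl | rfl
        · exact ⟨mem_union_left _ hy, rfl⟩
        · exact ⟨mem_union_right _ (mem_vadd_finset.2 ⟨y, hy, rfl⟩), by
            rw [map_add, hφa, zero_add]⟩
      have h10 := card_le_card h9
      rw [card_pair (by intro h; exact ha0 (by simpa using h.symm))] at h10
      exact h10)
    rw [h7] at h8
    omega

/-- The well spread case. -/
theorem spread (hG : Fintype.card G = 125) (S : Finset G) (hS0 : (0 : G) ∉ S)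
    (hcard : S.card = 27)
    (hS : ∀ H : AddSubgroup G, ∀ K : Finset G, (K : Set G) = H → K.card = 25 →
      (S ∩ K).card ≤ 8) : ss S = univ := by
  obtain ⟨B, hBS, hB8, hB⟩ := chain hG S hS0 hcard hS
  have h1 := ten_le hG (S \ B) (fun h => hS0 (mem_sdiff.1 h).1) hB8
  have h2 : ss S = ss B + ss (S \ B) := by
    rw [← ss_union disjoint_sdiff, union_sdiff_of_subset hBS]
  rw [h2]
  exact add_eq_univ_of_card _ _ (by omega)

/-- If at least nine elements lie in a subgroup of order `25`, the sums are as large as the image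
in the quotient permits. -/
theorem dense (hG : Fintype.card G = 125) (S : Finset G) (hS0 : (0 : G) ∉ S)
    (H : AddSubgroup G) [DecidableEq (G ⧸ H)] (K : Finset G) (hK : (K : Set G) = H)
    (hK25 : K.card = 25) (h9 : 9 ≤ (S ∩ K).card) (φ : G →+ G ⧸ H) (hφ : φ = QuotientAddGroup.mk' H)
    (h5 : 5 ≤ ((ss (S \ K)).image φ).card) : ss S = univ := by
  have hKm : ∀ x, x ∈ K ↔ x ∈ H := by
    intro x
    rw [← mem_coe, hK, SetLike.mem_coe]
  have hφ' : ∀ x, φ x = 0 ↔ x ∈ H := fun x => by
    rw [hφ]; exact QuotientAddGroup.eq_zero_iff x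
  have hHcard : Nat.card H = 25 := by
    have h2 : Nat.card H = Nat.card (H : Set G) := rfl
    rw [h2, ← hK]
    simpa using hK25
  have : Fintype (G ⧸ H) := Fintype.ofFinite _
  have hQ : Fintype.card (G ⧸ H) = 5 := by
    have h1 := AddSubgroup.card_eq_card_quotient_mul_card_addSubgroup H
    rw [hHcard, Nat.card_eq_fintype_card, hG, Nat.card_eq_fintype_card] at h1
    omega
  have hfull : (ss (S \ K)).image φ = univ := by
    rw [← card_eq_iff_eq_univ, hQ]
    exact le_antisymm (hQ ▸ card_le_univ _) h5
  -- the subgroup is covered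
  have : Fintype H := Fintype.ofFinite _
  have hcov : ∀ x ∈ H, x ∈ ss (S ∩ K) := by
    have : DecidablePred (fun x => x ∈ H) := Classical.decPred _
    let T : Finset H := (S ∩ K).subtype (fun x => x ∈ H)
    have hT : 9 ≤ T.card := by
      show 9 ≤ ((S ∩ K).subtype (fun x => x ∈ H)).card
      rw [card_subtype, filter_true_of_mem]
      · exact h9
      · intro x hx; exact (hKm x).1 (mem_inter.1 hx).2
    have h0T : (0 : H) ∉ T := by
      intro h
      rw [mem_subtype] at h
      exact hS0 (mem_inter.1 h).1
    have := nine (by rw [← Nat.card_eq_fintype_card]; exact hHcard) T h0T hT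
    intro x hx
    have hx' : (⟨x, hx⟩ : H) ∈ ss T := by rw [this]; exact mem_univ _
    obtain ⟨B, hB, hBx⟩ := mem_ss.1 hx'
    refine mem_ss.2 ⟨B.image (fun y : H => (y : G)), ?_, ?_⟩
    · intro y hy
      obtain ⟨z, hz, rfl⟩ := mem_image.1 hy
      have := hB hz
      rwa [mem_subtype] at this
    · rw [sum_image (fun x _ y _ h => Subtype.ext h)]
      have := congrArg (fun z : H => (z : G)) hBx
      simpa using this
  rw [eq_univ_iff_forall]
  intro g
  have h1 : φ g ∈ (ss (S \ K)).image φ := by rw [hfull]; exact mem_univ _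
  obtain ⟨s, hs, hsg⟩ := mem_image.1 h1
  have h2 : g - s ∈ H := by
    rw [← hφ', map_sub, hsg, sub_self]
  have h3 : ss S = ss (S ∩ K) + ss (S \ K) := by
    rw [← ss_union]
    · congr 1
      ext x; simp only [mem_union, mem_inter, mem_sdiff]; tauto
    · rw [disjoint_left]
      intro x hx hx'
      exact (mem_sdiff.1 hx').2 (mem_inter.1 hx).2
  rw [h3]
  exact mem_add.2 ⟨g - s, hcov _ h2, s, hs, by abel⟩

end Pool.Agent.MP_d4af01_co
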