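import Pool.Agent.Lib.MP_d4af01_co.Basic

/-!
Nine nonzero elements of a group of order `25` have all elements as subset sums
(verified by a small search using bit masks).
-/

open Finset
open scoped Pointwise

namespace Pool.Agent.MP_d4af01_co

/-- Depth-first search over pairs `{g, -g}`: mask `m`, number `rem` of pairs left, number
`need` of elements still to be chosen. -/
def chk {α : Type} (sh : α → ℕ → ℕ) (full : ℕ) : List (α × α) → ℕ → ℕ → ℕ → Bool
  | [], _, m, need => m == full || need != 0
  | p :: l, rem, m, need =>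
    m == full || Nat.blt (2 * rem) need ||
      (chk sh full l (rem - 1) m need &&
        (match need with
          | 0 => true
          | 1 => chk sh full l (rem - 1) (m ||| sh p.1 m) 0
          | (n + 2) => chk sh full l (rem - 1) (m ||| sh p.1 m) (n + 1) &&
              chk sh full l (rem - 1) ((m ||| sh p.1 m) ||| sh p.2 (m ||| sh p.1 m)) n))

/-- rotation of 25-bit masks -/
def rot (a m : ℕ) : ℕ := ((m <<< a) ||| (m >>> (25 - a))) &&& 33554431

def l25 : List (ℕ × ℕ) :=
  [(1, 24), (2, 23), (3, 22), (4, 21), (5, 20), (6, 19), (7, 18), (8, 17), (9, 16), (10, 15),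
   (11, 14), (12, 13)]

theorem chk25 : chk rot 33554431 l25 12 1 9 = true := by decide +kernel

/-- rotation by one inside each row of five bits -/
def col1 (m : ℕ) : ℕ := ((m <<< 1) &&& 32472030) ||| ((m >>> 4) &&& 1082401)

/-- shift by `(a, b)` on `5 × 5` -/
def sh5 (p : ℕ × ℕ) (m : ℕ) : ℕ := rot (5 * p.1) (col1^[p.2] m)

def l5 : List ((ℕ × ℕ) × (ℕ × ℕ)) :=
  [((0, 1), (0, 4)), ((0, 2), (0, 3)), ((1, 0), (4, 0)), ((2, 0), (3, 0)),
   ((1, 1), (4, 4)), ((2, 2), (3, 3)), ((1, 2), (4, 3)), ((2, 4), (3, 1)),
   ((1, 3), (4, 2)), ((2, 1), (3, 4)), ((1, 4), (4, 1)), ((2, 3), (3, 2))]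

theorem chk5 : chk sh5 33554431 l5 12 1 9 = true := by decide +kernel

section Sound

variable {H : Type*} [AddCommGroup H] [DecidableEq H] [Fintype H]

omit [Fintype H] in
lemma add_ss_insert (X T : Finset H) (g : H) (hg : g ∉ T) :
    X + ss (insert g T) = (X ∪ (g +ᵥ X)) + ss T := by
  rw [ss_insert hg]
  ext y
  simp only [mem_add, mem_union, mem_vadd_finset, vadd_eq_add]
  constructor
  · rintro ⟨x, hx, z, (hz | ⟨w, hz, rfl⟩), rfl⟩
    · exact ⟨x, Or.inl hx, z, hz, rfl⟩
    · exact ⟨g + x, Or.inr ⟨x, hx, rfl⟩, w, hz, by abel⟩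
  · rintro ⟨x, (hx | ⟨w, hw, rfl⟩), z, hz, rfl⟩
    · exact ⟨x, hx, z, Or.inl hz, rfl⟩
    · exact ⟨w, hw, g + z, Or.inr ⟨z, hz, rfl⟩, by abel⟩

lemma chk_one {α : Type} {sh : α → ℕ → ℕ} {full rem m1 m2 n : ℕ} {l : List (α × α)}
    (h : (match n + 1 with
          | 0 => true
          | 1 => chk sh full l rem m1 0
          | (k + 2) => chk sh full l rem m1 (k + 1) && chk sh full l rem m2 k) = true) :
    chk sh full l rem m1 n = true := by
  cases n with
  | zero => exact h
  | succ n => exact (Bool.and_eq_true _ _ ▸ h : _ ∧ _).1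

lemma chk_two {α : Type} {sh : α → ℕ → ℕ} {full rem m1 m2 n : ℕ} {l : List (α × α)}
    (h : (match n + 2 with
          | 0 => true
          | 1 => chk sh full l rem m1 0
          | (k + 2) => chk sh full l rem m1 (k + 1) && chk sh full l rem m2 k) = true) :
    chk sh full l rem m2 n = true := by
  exact (Bool.and_eq_true _ _ ▸ h : _ ∧ _).2

theorem chk_sound {α : Type} (e : H → ℕ) (val : α → H) (sh : α → ℕ → ℕ)
    (hfull : ∀ h, (33554431 : ℕ).testBit (e h) = true)
    (hshlt : ∀ a m, sh a m < 2 ^ 25)
    (l : List (α × α)) (hl : ∀ p ∈ l, val p.2 = - val p.1)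
    (hsh : ∀ p ∈ l, ∀ a, a = p.1 ∨ a = p.2 → ∀ m, m < 2 ^ 25 →
      ∀ h, (sh a m).testBit (e h) = m.testBit (e (h - val a))) :
    ∀ (need m : ℕ) (X : Finset H), m < 2 ^ 25 → (∀ h, h ∈ X ↔ m.testBit (e h) = true) →
      chk sh 33554431 l l.length m need = true →
      ∀ T : Finset H, (∀ t ∈ T, ∃ p ∈ l, t = val p.1 ∨ t = val p.2) → T.card = need →
      X + ss T = univ := by
  induction l with
  | nil =>
    intro need m X hm hX hc T hT hneed
    have hT0 : T = ∅ := by
      rw [eq_empty_iff_forall_notMem]
      intro t ht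
      obtain ⟨p, hp, _⟩ := hT t ht
      exact absurd hp (List.not_mem_nil)
    subst hT0
    rw [card_empty] at hneed
    subst hneed
    simp only [chk, bne_self_eq_false, Bool.or_false, beq_iff_eq] at hc
    subst hc
    have : X = univ := by
      rw [eq_univ_iff_forall]; intro h; exact (hX h).2 (hfull h)
    rw [this, ss_empty, eq_univ_iff_forall]
    intro x
    exact mem_add.2 ⟨x, mem_univ _, 0, mem_singleton_self _, add_zero x⟩
  | cons p l ih =>
    intro need m X hm hX hc T hT hneed
    have ih' := ih (fun q hq => hl q (List.mem_cons_of_mem _ hq))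
      (fun q hq => hsh q (List.mem_cons_of_mem _ hq))
    simp only [chk, Bool.or_eq_true, Bool.and_eq_true, beq_iff_eq] at hc
    rcases hc with (hc | hc) | hc
    · subst hc
      have : X = univ := by
        rw [eq_univ_iff_forall]; intro h; exact (hX h).2 (hfull h)
      rw [this, eq_univ_iff_forall]
      intro x
      exact mem_add.2 ⟨x, mem_univ _, 0, zero_mem_ss T, add_zero x⟩
    · -- too few pairs are left
      exfalso
      have h1 : T.card ≤ 2 * (p :: l).length := by
        have h2 : T ⊆ ((p :: l).map (fun q => val q.1) ++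
            (p :: l).map (fun q => val q.2)).toFinset := by
          intro t ht
          obtain ⟨q, hq, h⟩ := hT t ht
          rw [List.mem_toFinset, List.mem_append, List.mem_map, List.mem_map]
          rcases h with h | h
          · exact Or.inl ⟨q, hq, h.symm⟩
          · exact Or.inr ⟨q, hq, h.symm⟩
        refine (card_le_card h2).trans ((List.toFinset_card_le _).trans ?_)
        simp only [List.length_append, List.length_map]
        omega
      have h3 : 2 * (p :: l).length < need := by
        have := hc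
        simp only [Nat.blt, Nat.ble_eq] at this
        omega
      omega
    · obtain ⟨hc0, hc1⟩ := hc
      have hlen : (p :: l).length - 1 = l.length := by simp
      rw [hlen] at hc0 hc1
      set g := val p.1 with hg
      have hg2 : val p.2 = -g := hl p (List.mem_cons_self)
      have hstep : ∀ (a : α), (a = p.1 ∨ a = p.2) → ∀ (m' : ℕ) (X' : Finset H), m' < 2 ^ 25 →
          (∀ h, h ∈ X' ↔ m'.testBit (e h) = true) →
          ∀ h, h ∈ X' ∪ (val a +ᵥ X') ↔ (m' ||| sh a m').testBit (e h) = true := by
        intro a ha m' X' hm' hX' h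
        rw [Nat.testBit_or, Bool.or_eq_true, mem_union, hX' h,
          hsh p List.mem_cons_self a ha m' hm' h, ← hX' (h - val a)]
        refine or_congr Iff.rfl ?_
        rw [← neg_vadd_mem_iff, vadd_eq_add, neg_add_eq_sub]
      have hlt1 : m ||| sh p.1 m < 2 ^ 25 := Nat.or_lt_two_pow hm (hshlt _ _)
      have hlt2 : (m ||| sh p.1 m) ||| sh p.2 (m ||| sh p.1 m) < 2 ^ 25 :=
        Nat.or_lt_two_pow hlt1 (hshlt _ _)
      have hstep1 := hstep p.1 (Or.inl rfl) m X hm hX
      have hstep2 := hstep p.2 (Or.inr rfl) _ _ hlt1 hstep1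
      rw [← hg] at hstep1 hstep2
      rw [hg2] at hstep2
      have hTrest : ∀ T' : Finset H, T' ⊆ T → g ∉ T' → -g ∉ T' →
          ∀ t ∈ T', ∃ q ∈ l, t = val q.1 ∨ t = val q.2 := by
        intro T' hT' h1 h2 t ht
        obtain ⟨q, hq, h⟩ := hT t (hT' ht)
        rcases List.mem_cons.1 hq with hq | hq
        · exfalso
          subst hq
          rcases h with h | h
          · rw [← hg] at h; exact h1 (h ▸ ht)
          · rw [hg2] at h; exact h2 (h ▸ ht)
        · exact ⟨q, hq, h⟩
      by_cases h1 : g ∈ T
      · by_cases h2 : -g ∈ T.erase g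
        · set T' := (T.erase g).erase (-g) with hT'
          have hTT : insert g (insert (-g) T') = T := by
            rw [hT', insert_erase h2, insert_erase h1]
          have hgT' : -g ∉ T' := notMem_erase _ _
          have hgT : g ∉ insert (-g) T' := by
            rw [hT', insert_erase h2]; exact notMem_erase g T
          have hgT'' : g ∉ T' := fun h => hgT (mem_insert_of_mem h)
          have hcard : T'.card + 2 = need := by
            rw [← hneed, ← hTT, card_insert_of_notMem hgT, card_insert_of_notMem hgT']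
          obtain ⟨n, rfl⟩ : ∃ n, need = n + 2 := ⟨T'.card, hcard.symm⟩
          rw [← hTT, add_ss_insert _ _ _ hgT, add_ss_insert _ _ _ hgT']
          exact ih' n _ _ hlt2 hstep2 (chk_two hc1) T'
            (hTrest T' ((erase_subset _ _).trans (erase_subset _ _)) hgT'' hgT') (by omega)
        · set T' := T.erase g with hT'
          have hTT : insert g T' = T := insert_erase h1
          have hgT' : g ∉ T' := notMem_erase g T
          have hcard : T'.card + 1 = need := by
            rw [← hneed, ← hTT, card_insert_of_notMem hgT']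
          obtain ⟨n, rfl⟩ : ∃ n, need = n + 1 := ⟨T'.card, hcard.symm⟩
          rw [← hTT, add_ss_insert _ _ _ hgT']
          exact ih' n _ _ hlt1 hstep1 (chk_one hc1) T'
            (hTrest T' (erase_subset _ _) hgT' h2) (by omega)
      · by_cases h2 : -g ∈ T
        · set T' := T.erase (-g) with hT'
          have hTT : insert (-g) T' = T := insert_erase h2
          have hgT' : -g ∉ T' := notMem_erase (-g) T
          have hgT'' : g ∉ T' := fun h => h1 (mem_of_mem_erase h)
          have hcard : T'.card + 1 = need := by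
            rw [← hneed, ← hTT, card_insert_of_notMem hgT']
          obtain ⟨n, rfl⟩ : ∃ n, need = n + 1 := ⟨T'.card, hcard.symm⟩
          have hu := ih' n _ _ hlt1 hstep1 (chk_one hc1) T'
            (hTrest T' (erase_subset _ _) hgT'' hgT') (by omega)
          rw [← hTT, add_ss_insert _ _ _ hgT']
          rw [eq_univ_iff_forall] at hu ⊢
          intro y
          obtain ⟨x, hx, z, hz, hxz⟩ := mem_add.1 (hu (g + y))
          rw [mem_union, mem_vadd_finset] at hx
          rcases hx with hx | ⟨w, hw, rfl⟩
          · refine mem_add.2 ⟨-g + x, mem_union_right _ (mem_vadd_finset.2 ⟨x, hx, rfl⟩), z, hz, ?_⟩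
            rw [add_assoc, hxz]; abel
          · refine mem_add.2 ⟨w, mem_union_left _ hw, z, hz, ?_⟩
            rw [vadd_eq_add] at hxz
            have : w + z = -g + (g + w + z) := by abel
            rw [this, hxz]; abel
        · exact ih' need m X hm hX hc0 T (hTrest T subset_rfl h1 h2) hneed

end Sound

lemma rot_lt (a m : ℕ) : rot a m < 2 ^ 25 := by
  unfold rot
  exact lt_of_le_of_lt Nat.and_le_right (by norm_num)

lemma testBit_rot (a m i : ℕ) (hi : i < 25) :
    (rot a m).testBit i = ((decide (a ≤ i) && m.testBit (i - a)) || m.testBit (25 - a + i)) := by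
  have h : (33554431 : ℕ) = 2 ^ 25 - 1 := by norm_num
  unfold rot
  rw [h, Nat.testBit_and, Nat.testBit_or, Nat.testBit_shiftLeft, Nat.testBit_shiftRight,
    Nat.testBit_two_pow_sub_one]
  simp [hi]

lemma testBit_full (i : ℕ) (hi : i < 25) : (33554431 : ℕ).testBit i = true := by
  have h : (33554431 : ℕ) = 2 ^ 25 - 1 := by norm_num
  rw [h, Nat.testBit_two_pow_sub_one]; simpa using hi

lemma testBit_big (m i : ℕ) (hm : m < 2 ^ 25) (hi : 25 ≤ i) : m.testBit i = false :=
  Nat.testBit_lt_two_pow (lt_of_lt_of_le hm (Nat.pow_le_pow_right (by norm_num) hi))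

/-- `rot` is the cyclic shift. -/
lemma testBit_rot' (a m i : ℕ) (ha : a ≤ 25) (hm : m < 2 ^ 25) (hi : i < 25) :
    (rot a m).testBit i = if a ≤ i then m.testBit (i - a) else m.testBit (25 + i - a) := by
  rw [testBit_rot a m i hi]
  split_ifs with h
  · rw [testBit_big m (25 - a + i) hm (by omega)]
    simp [h]
  · have : 25 - a + i = 25 + i - a := by omega
    simp [h, this]

lemma col1_lt (m : ℕ) : col1 m < 2 ^ 25 := by
  unfold col1
  exact Nat.or_lt_two_pow (lt_of_le_of_lt Nat.and_le_right (by norm_num))
    (lt_of_le_of_lt Nat.and_le_right (by norm_num))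

lemma testBit_col1 (m x y : ℕ) (hx : x < 5) (hy : y < 5) :
    (col1 m).testBit (5 * x + y) = m.testBit (5 * x + (if y = 0 then 4 else y - 1)) := by
  unfold col1
  rw [Nat.testBit_or, Nat.testBit_and, Nat.testBit_and, Nat.testBit_shiftLeft,
    Nat.testBit_shiftRight]
  have h1 : (32472030 : ℕ).testBit (5 * x + y) = decide (y ≠ 0) := by
    interval_cases x <;> interval_cases y <;> decide
  have h2 : (1082401 : ℕ).testBit (5 * x + y) = decide (y = 0) := by
    interval_cases x <;> interval_cases y <;> decide
  rw [h1, h2]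
  by_cases hy0 : y = 0
  · subst hy0
    simp [add_comm]
  · have h3 : 1 ≤ 5 * x + y := by omega
    have h4 : 5 * x + y - 1 = 5 * x + (y - 1) := by omega
    simp [hy0, h3, h4]

/-- Nine nonzero elements of `ZMod 25`. -/
theorem nine_zmod25 (T : Finset (ZMod 25)) (h0 : (0 : ZMod 25) ∉ T) (hT : T.card = 9) :
    ss T = univ := by
  have key := chk_sound (H := ZMod 25) (fun h => h.val) (fun a : ℕ => (a : ZMod 25)) rot
    (fun h => testBit_full _ (ZMod.val_lt h)) rot_lt l25 (by decide) ?_ 9 1 {0} (by norm_num) ?_
    chk25 T ?_ hT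
  · rwa [Finset.singleton_zero, zero_add] at key
  · intro p hp a ha m hm h
    have ha25 : a ≤ 25 := by
      have : ∀ p ∈ l25, p.1 ≤ 25 ∧ p.2 ≤ 25 := by decide
      rcases ha with rfl | rfl
      · exact (this p hp).1
      · exact (this p hp).2
    have hv : ∀ a : ℕ, a ≤ 25 → ∀ h : ZMod 25, (h - (a : ZMod 25)).val =
        if a = 25 then h.val else if a ≤ h.val then h.val - a else 25 + h.val - a := by decide
    have ha25' : a ≠ 25 := by
      have : ∀ p ∈ l25, p.1 ≠ 25 ∧ p.2 ≠ 25 := by decide
      rcases ha with rfl | rfl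
      · exact (this p hp).1
      · exact (this p hp).2
    show (rot a m).testBit h.val = m.testBit (h - (a : ZMod 25)).val
    rw [testBit_rot' a m h.val ha25 hm (ZMod.val_lt h), hv a ha25 h, if_neg ha25']
    split_ifs <;> rfl
  · intro h
    revert h
    decide
  · intro t ht
    have h1 : t ≠ 0 := fun h => h0 (h ▸ ht)
    revert h1
    revert t
    have : ∀ t : ZMod 25, t ≠ 0 → ∃ p ∈ l25, t = (p.1 : ZMod 25) ∨ t = (p.2 : ZMod 25) := by
      decide
    intro t _ h
    exact this t h

end Pool.Agent.MP_d4af01_co
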